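import Mathlib
import Pool.Agent.H759R2.Kad.Props3
import Pool.Agent.H862R2.Kad.Embed

open scoped ComplexOrder InnerProductSpace ComplexConjugate
open Finset

noncomputable section

namespace H759R2.Kad

universe u v

open Embed in
theorem prove3_level : K_level.{u, v} := by
  intro B _ _ _ K _ _ _ w L γ hγ hL ι _ _ hι Y
  have : Nonempty (ι ↪ Fin L) := by
    refine Function.Embedding.nonempty_of_card_le ?_
    simpa using hι
  obtain ⟨e⟩ := this
  refine ContinuousLinearMap.opNorm_le_bound _ (mul_nonneg hγ (norm_nonneg _)) fun ξ => ?_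
  have h1 : ‖exv e (amp w ι Y ξ)‖ ≤ γ * ‖exH e Y‖ * ‖exv e ξ‖ := by
    rw [← amp_ex]
    exact ((amp w (Fin L) (exH e Y)).le_opNorm _).trans
      (mul_le_mul_of_nonneg_right (hL _) (norm_nonneg _))
  have hv : ∀ η : HH ι K, ‖exv e η‖ = ‖η‖ := fun η =>
    (pow_left_inj₀ (norm_nonneg _) (norm_nonneg _) two_ne_zero).1 (exv_norm e η)
  rw [hv, hv] at h1
  refine h1.trans (mul_le_mul_of_nonneg_right (mul_le_mul_of_nonneg_left ?_ hγ) (norm_nonneg _))
  exact NonUnitalStarAlgHom.norm_apply_le (exH e) Y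

end H759R2.Kad
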